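import Pool.Agent.H508.S.B2
import Pool.Agent.H508.R.A8

/-!
# The function of two conjugate families of operators over an arbitrary field
-/

set_option autoImplicit false
set_option linter.unusedSectionVars false
set_option linter.style.haveILetI false

open Complex NumberField IsDedekindDomain

namespace Pool.Agent.H508.S

open Pool.Agent.K7.H70.EQ (HH avg frob_conj avg_pow avg_fin det_exp)
open Pool.Agent.K7.H70.SE (GoodG und0_tower exists_above ps rt rd RdOk lt rt_a rt_spec rt_lt)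
open Pool.Agent.Y696 (nK und0 card_nm aV_inert eis om bel mem_bel deg_base exists_prim psi_prim E0)
open Pool.Agent.Y688 (RR wR w wR_coe)
open Pool.Agent.R430 (PN PN_prime PN_three PN_good PN_sq iE tE tR)
open Pool.Agent.W192.HK (sp)
open Pool.Agent.W189.NF (aV eV)
open Pool.Agent.K7.H70.AW
open Pool.Agent.K7.H70.TW (Fam)
open Pool.Agent.K7.H65.FP (Semi opP opP_pos opP_neg trace_opP_pos trace_opP_neg fx fx_one fx_mul
  z_case z_ne fx_inertia fx_frob toC' toC'_apply toC_add toC_mul prodMap_pow prodMap_inj card_mod3)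
open Pool.Agent.Y692.QS (toC Ei nr toC_normSq)
open IntermediateField (fixedField subgroupEquivAlgEquiv)
open Pool.Agent.H921R2.TatePole (two_le_nm)
open Pool.Agent.H508.D
open Pool.Agent.H508.R hiding PN_first
open scoped Classical

/-! ### all the representations -/

section
variable {K F L : Type} [Field K] [NumberField K] [Field F] [NumberField F] [Algebra K F]
  [IsGalois K F] [Field L] [NumberField L] [Algebra F L]
  {wf : HeightOneSpectrum (𝓞 K) → HeightOneSpectrum (𝓞 F)}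

theorem rep_nv (hf : Fam L) (hr : Rays L) (ι : RR →+* 𝓞 K) (hwf : ∀ v, und0 K (wf v) = v)
    {V : Type} [AddCommGroup V] [Module ℂ V] [FiniteDimensional ℂ V]
    (ρ : Representation ℂ Gal(F/K) V) :
    (∃ R : ℂ → ℂ, Ct R (LL K (PW ι) wf (fun g => LinearMap.trace ℂ V (ρ g⁻¹))) ∧ R 1 ≠ 0) ∧
    ∃ R : ℂ → ℂ, Ct R (LL K (fun v j => (starRingEnd ℂ) (PW ι v j)) wf
      (fun g => LinearMap.trace ℂ V (ρ g⁻¹))) ∧ R 1 ≠ 0 := by
  obtain ⟨κ, _, C, X, n, hθ⟩ := exists_fam ρ
  obtain ⟨hne, R, hR, hR1⟩ := ct_fam (wf := wf) hf hr ι hwf C X n hθ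
  refine ⟨⟨R, hR, by rw [hR1]; exact Finset.prod_ne_zero_iff.2 fun i _ => zpow_ne_zero _ (hne i)⟩, ?_⟩
  set σ : ℂ ≃+* ℂ := starRingAut
  have hσ : ∀ x : ℂ, σ x = (starRingEnd ℂ) x := fun _ => rfl
  have hθ' : ∀ g, (starRingEnd ℂ) (LinearMap.trace ℂ V (ρ g⁻¹)) = ∑ i, (n i : ℂ) *
      ((Nat.card (C i) : ℂ)⁻¹ * JJ (C i) (fun c => ((sX σ (X i) c : ℂˣ) : ℂ)) g) := fun g => by
    rw [hθ, map_sum]
    exact Finset.sum_congr rfl fun i _ => by
      rw [map_mul, map_mul, map_inv₀, map_intCast, map_natCast, ← JJ_sX, hσ]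
  obtain ⟨hne', R', hR', hR1'⟩ := ct_fam (wf := wf) hf hr ι hwf C (fun i => sX σ (X i)) n hθ'
  have h1 := hR'.conj
  refine ⟨_, h1.congr fun s _ => ?_, ?_⟩
  · rw [LL_conj]
    congr 1
    funext g
    rw [Complex.conj_conj]
  · rw [map_one, map_ne_zero, hR1']
    exact Finset.prod_ne_zero_iff.2 fun i _ => zpow_ne_zero _ (hne' i)

end

/-! ### the homomorphism from the Eisenstein integers -/

lemma exists_io' {M F : Type} [Field M] [NumberField M] [Field F] [NumberField F] [Algebra M F]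
    {z : 𝓞 F} (hz : z * z = -1 - z) (ht : ∃ t : M, algebraMap M F t = z) :
    ∃ ι : RR →+* 𝓞 M, algebraMap (𝓞 M) (𝓞 F) (ι wR) = -1 - z := by
  obtain ⟨t, ht⟩ := ht
  have hcz : (z : F) * z = -1 - z := by
    have := congrArg (fun t : 𝓞 F => (t : F)) hz
    simpa using this
  have ht2 : t * t = -1 - t := by
    apply (algebraMap M F).injective
    rw [map_mul, map_sub, map_neg, map_one, ht, hcz]
  have h3M : ∃ a : M, a ^ 2 = -3 := ⟨2 * t + 1, by linear_combination 4 * ht2⟩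
  obtain ⟨ι⟩ := exists_iota' h3M
  have hw2 : wR * wR = -1 - wR := by
    apply Subtype.ext
    push_cast
    rw [wR_coe]
    linear_combination Pool.Agent.Y688.w_sq
  have h1 : ((ι wR : 𝓞 M) : M) * ((ι wR : 𝓞 M) : M) = -1 - ((ι wR : 𝓞 M) : M) := by
    have h2 := congrArg (fun r : RR => ((ι r : 𝓞 M) : M)) hw2
    simp only [map_mul, map_sub, map_neg, map_one] at h2
    simpa using h2
  have h2 : (((ι wR : 𝓞 M) : M) - (-1 - t)) * (((ι wR : 𝓞 M) : M) - t) = 0 := by
    linear_combination h1 - ht2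
  rcases mul_eq_zero.1 h2 with h | h
  · refine ⟨ι, RingOfIntegers.ext ?_⟩
    show algebraMap M F ((ι wR : 𝓞 M) : M) = _
    rw [sub_eq_zero.1 h, map_sub, map_neg, map_one, ht]
    push_cast
    rfl
  · refine ⟨ι.comp cR, RingOfIntegers.ext ?_⟩
    show algebraMap M F ((ι (cR wR) : 𝓞 M) : M) = _
    have h3 : ((ι (cR wR) : 𝓞 M) : M) = -1 - t := by
      rw [cR_w, map_sub, map_neg, map_one]
      exact congrArg (fun y => -1 - y) (sub_eq_zero.1 h)
    rw [h3, map_sub, map_neg, map_one, ht]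
    push_cast
    rfl

/-! ### fields which contain the cube roots of unity -/

section
variable {K F : Type} [Field K] [NumberField K] [Field F] [NumberField F] [Algebra K F]
  [IsGalois K F] {z : 𝓞 F} {wo : HeightOneSpectrum (𝓞 K) → HeightOneSpectrum (𝓞 F)}
  {W : Type} [AddCommGroup W] [Module ℂ W] [FiniteDimensional ℂ W]
  {a b : Gal(F/K) → Module.End ℂ W} {ι : RR →+* 𝓞 K}

lemma conj_bd : BdP (fun v j => (starRingEnd ℂ) (PW ι v j)) := fun v j => by
  rw [RCLike.norm_conj]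
  exact PW_bd v j

/-- the value of the Hecke character -/
lemma PN_base (hK : GoodG K) (hz : z * z = -1 - z)
    (hι : algebraMap (𝓞 K) (𝓞 F) (ι wR) = -1 - z) (hwo : ∀ v, und0 K (wo v) = v)
    {v : HeightOneSpectrum (𝓞 K)} (h3 : (3 : 𝓞 K) ∉ v.asIdeal) {x : Ei} (hx : nr x = nK v)
    (hx2 : 2 * x.re - x.im = aV (E0 K) v) (hxW : (x.re : 𝓞 F) + x.im * z ∈ (wo v).asIdeal) :
    PN ι v.asIdeal = toC x := by
  have h3F : (3 : 𝓞 F) ∉ (wo v).asIdeal := fun h => h3 (by
    rw [← hwo v]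
    exact Pool.Agent.K7.H70.SE.mem_und0.2 h)
  have h1 := ps_PW (ι := ι) hK v 1
  unfold PW ps at h1
  rw [pow_one, pow_one, pow_one, ← rt_a hK, ← hx2, ← toC_add] at h1
  have h4 := (PN_good (ι := ι) h3).1
  have h5 : (nK v : ℂ) = toC x * toC' x := by
    rw [toC_mul, hx]
    push_cast
    rfl
  rw [h5] at h4
  have h6 : (PN ι v.asIdeal - toC x) * (PN ι v.asIdeal - toC' x) = 0 := by
    linear_combination (-PN ι v.asIdeal) * h1 - h4
  have hor : PN ι v.asIdeal = toC x ∨ PN ι v.asIdeal = toC' x := by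
    rcases mul_eq_zero.1 h6 with h | h
    · exact Or.inl (sub_eq_zero.1 h)
    · exact Or.inr (sub_eq_zero.1 h)
  have h7 := PN_first (M := K) (W := wo v) (ι := ι) (x := x) hz hι h3F hxW (by
    rw [hwo]
    exact hor)
  rwa [hwo] at h7

/-- the Euler product -/
theorem euler_lin (hz : z * z = -1 - z) (hall : ∀ σ : Gal(F/K), fx z σ) (S : Semi (fx z) a b)
    (hι : algebraMap (𝓞 K) (𝓞 F) (ι wR) = -1 - z) (hK : GoodG K)
    (hwo : ∀ v, und0 K (wo v) = v) {x : HeightOneSpectrum (𝓞 K) → Ei}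
    (hx : ∀ v, (3 : 𝓞 K) ∉ v.asIdeal → nK v % 3 = 1 → nr (x v) = nK v ∧
      2 * (x v).re - (x v).im = aV (E0 K) v ∧ ((x v).re : 𝓞 F) + (x v).im * z ∈ (wo v).asIdeal)
    {φ : HeightOneSpectrum (𝓞 K) → Gal(F/K)}
    (hφ : ∀ v, ∀ y : 𝓞 F, φ v • y - y ^ nK v ∈ (wo v).asIdeal) {s : ℂ} (hs : s ∈ HH) :
    HasProd (fun v => fac a b (x v) v (wo v) (φ v) s)
      (Complex.exp (LL K (PW ι) wo (fun g => LinearMap.trace ℂ W (a g)) s +
        LL K (fun v j => (starRingEnd ℂ) (PW ι v j)) wo (fun g => LinearMap.trace ℂ W (b g)) s)) := by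
  have hsum := ((LL_summable (wf := wo) (PW_bd (ι := ι)) (fun g => LinearMap.trace ℂ W (a g))
    hs).hasSum).add ((LL_summable (wf := wo) (conj_bd (ι := ι)) (fun g => LinearMap.trace ℂ W (b g))
    hs).hasSum)
  have hloc : ∀ v, ∃ L : ℂ, HasSum (fun m : ℕ =>
      av K (fun g => LinearMap.trace ℂ W (a g)) (wo v) (m + 1) * ltP (PW ι) (v, m) s +
      av K (fun g => LinearMap.trace ℂ W (b g)) (wo v) (m + 1) *
        ltP (fun v j => (starRingEnd ℂ) (PW ι v j)) (v, m) s) L ∧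
      Complex.exp L = fac a b (x v) v (wo v) (φ v) s := by
    intro v
    have hp := (wo v).isPrime
    have hφI := frob_conj (nK_ne v) (hφ v)
    have hφ' : ∀ y : 𝓞 F, φ v • y - y ^ nK (und0 K (wo v)) ∈ (wo v).asIdeal := by
      rw [hwo]; exact hφ v
    unfold fac
    by_cases h3 : (3 : 𝓞 K) ∈ v.asIdeal
    · rw [if_pos h3]
      refine ⟨0, ?_, Complex.exp_zero⟩
      have h1 : ∀ m : ℕ, av K (fun g => LinearMap.trace ℂ W (a g)) (wo v) (m + 1) *
          ltP (PW ι) (v, m) s + av K (fun g => LinearMap.trace ℂ W (b g)) (wo v) (m + 1) *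
          ltP (fun v j => (starRingEnd ℂ) (PW ι v j)) (v, m) s = 0 := fun m => by
        unfold ltP PW
        simp only
        rw [PN_three h3, zero_pow (Nat.succ_ne_zero m), map_zero, zero_mul, zero_div, mul_zero,
          mul_zero, add_zero]
      rw [funext h1]
      exact hasSum_zero
    rw [if_neg h3]
    have h3F : (3 : 𝓞 F) ∉ (wo v).asIdeal := fun h => h3 (by
      rw [← hwo v]
      exact Pool.Agent.K7.H70.SE.mem_und0.2 h)
    have hq : nK v % 3 = 1 := by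
      have h5 := card_mod3 h3
      rw [card_nm] at h5
      refine h5.resolve_right fun h2 => ?_
      exact (fx_frob hz h3F (hφ v z)).2 h2 (hall _)
    rw [if_pos hq]
    obtain ⟨hx1, hx2, hx3⟩ := hx v h3 hq
    have hPN := PN_base hK hz hι hwo h3 hx1 hx2 hx3
    have hrm := (rt_spec hK h3).1
    have hrl := (rt_lt hK v hs).1
    set r := rt hK v with hr
    have e2 : r * (starRingEnd ℂ) r = toC (x v) * toC' (x v) := by
      rw [hrm, toC_mul, hx1]
      push_cast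
      rfl
    have e3 : ‖toC (x v)‖ = ‖r‖ := by
      have h1 : ‖toC (x v)‖ ^ 2 = ‖r‖ ^ 2 := by
        rw [← Complex.normSq_eq_norm_sq, ← Complex.normSq_eq_norm_sq]
        have h2 : ((Complex.normSq (toC (x v)) : ℝ) : ℂ) = ((Complex.normSq r : ℝ) : ℂ) := by
          rw [← Complex.mul_conj, ← Complex.mul_conj]
          exact e2.symm
        exact_mod_cast h2
      exact (pow_left_inj₀ (norm_nonneg _) (norm_nonneg _) two_ne_zero).1 h1
    have hα : ‖toC (x v) * (nK v : ℂ) ^ (-s)‖ < 1 := by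
      rw [norm_mul, e3, ← norm_mul]
      exact hrl
    have hβ : ‖toC' (x v) * (nK v : ℂ) ^ (-s)‖ < 1 := by
      rw [norm_mul, toC'_apply, RCLike.norm_conj, e3, ← norm_mul]
      exact hrl
    have hI := fx_inertia (K := K) hz h3F
    obtain ⟨L, hL, he⟩ := loc_two S hI (hall (φ v)) hφI hα hβ
    refine ⟨L, ?_, he⟩
    refine hL.congr_fun fun m => ?_
    unfold ltP PW
    simp only
    rw [av_oav hφ', av_oav hφ', hPN, mul_pow, mul_pow, map_pow, ← toC'_apply]
    show LinearMap.trace ℂ W (oav a _ (φ v ^ (m + 1))) * _ +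
      LinearMap.trace ℂ W (oav b _ (φ v ^ (m + 1))) * _ = _
    ring
  choose L hL he using hloc
  have h1 := hsum.prod_fiberwise hL
  have h2 := h1.cexp
  refine HasProd.congr_fun h2 fun v => ?_
  exact (he v).symm

end

/-! ### the general case -/

section
variable {K F L : Type} [Field K] [NumberField K] [Field F] [NumberField F] [Algebra K F]
  [IsGalois K F] [Field L] [NumberField L] [Algebra F L] {z : 𝓞 F}
  {wo : HeightOneSpectrum (𝓞 K) → HeightOneSpectrum (𝓞 F)}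
  {W : Type} [AddCommGroup W] [Module ℂ W] [FiniteDimensional ℂ W]
  {a b : Gal(F/K) → Module.End ℂ W}

lemma fx_iff' (σ : Gal(F/K)) : fx z σ ↔ σ (z : F) = z := by
  unfold fx
  constructor
  · intro h
    exact congrArg (fun t : 𝓞 F => (t : F)) h
  · intro h
    exact RingOfIntegers.ext h

/-- **the continuation and the Euler product over an arbitrary field** -/
theorem semi_all (hf : Fam L) (hr : Rays L) (hK : GoodG K) (hz : z * z = -1 - z)
    (hwo : ∀ v, und0 K (wo v) = v) (S : Semi (fx z) a b) {x : HeightOneSpectrum (𝓞 K) → Ei}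
    (hx : ∀ v, (3 : 𝓞 K) ∉ v.asIdeal → nK v % 3 = 1 → nr (x v) = nK v ∧
      2 * (x v).re - (x v).im = aV (E0 K) v ∧ ((x v).re : 𝓞 F) + (x v).im * z ∈ (wo v).asIdeal)
    {φ : HeightOneSpectrum (𝓞 K) → Gal(F/K)}
    (hφ : ∀ v, ∀ y : 𝓞 F, φ v • y - y ^ nK v ∈ (wo v).asIdeal) :
    ∃ Φ : ℂ → ℂ, MeromorphicOn Φ Set.univ ∧ AnalyticAt ℂ Φ 1 ∧
      (∀ s ∈ HH, HasProd (fun v => fac a b (x v) v (wo v) (φ v) s) (Φ s)) ∧ Φ 1 ≠ 0 := by
  by_cases hex : ∃ τ : Gal(F/K), ¬ fx z τ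
  · obtain ⟨τ, hτ⟩ := hex
    set C : Subgroup Gal(F/K) := MulAction.stabilizer Gal(F/K) z with hCdef
    have hC : ∀ σ, σ ∈ C ↔ fx z σ := fun σ => Iff.rfl
    obtain ⟨ι, hι⟩ := exists_io' (M := fixedField C) hz
      ⟨⟨(z : F), fun σ => (fx_iff' σ.1).1 ((hC σ.1).1 σ.2)⟩, rfl⟩
    let _ : Algebra (fixedField C) L :=
      ((algebraMap F L).comp (algebraMap (fixedField C) F)).toAlgebra
    have hM : GoodG (fixedField C) := hf.good _
    let ρ : Representation ℂ Gal(F/fixedField C) W :=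
      { toFun := fun σ => a ((subgroupEquivAlgEquiv C).symm σ : Gal(F/K))⁻¹
        map_one' := by
          rw [map_one]
          show a (1 : Gal(F/K))⁻¹ = 1
          rw [inv_one, S.a1]
        map_mul' := fun σ τ => by
          rw [map_mul]
          show a (((subgroupEquivAlgEquiv C).symm σ : Gal(F/K)) *
            ((subgroupEquivAlgEquiv C).symm τ : Gal(F/K)))⁻¹ = _
          rw [mul_inv_rev, S.am, if_pos ((hC _).1 (C.inv_mem
            ((subgroupEquivAlgEquiv C).symm τ).2))] }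
    have hρ : ∀ σ, ρ σ⁻¹ = a ((subgroupEquivAlgEquiv C).symm σ : Gal(F/K)) := fun σ => by
      show a ((subgroupEquivAlgEquiv C).symm σ⁻¹ : Gal(F/K))⁻¹ = _
      rw [map_inv, Subgroup.coe_inv, inv_inv]
    obtain ⟨⟨R, hR, hR1⟩, -⟩ := rep_nv hf hr ι (wx_und (wo := wo)) ρ
    have hθ : (fun g => LinearMap.trace ℂ W (ρ g⁻¹)) = dn C fun g => LinearMap.trace ℂ W (a g) := by
      funext g
      rw [hρ]
      rfl
    rw [hθ] at hR
    refine ⟨R, hR.mero, hR.an, fun s hs => ?_, hR1⟩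
    rw [hR.eq s hs]
    exact euler_semi' hz hC hτ hwo S hι hK hM hx hφ hs
  · push Not at hex
    obtain ⟨t, ht⟩ := (IsGalois.mem_bot_iff_fixed (F := K) (E := F) (z : F)).2 fun g =>
      (fx_iff' g).1 (hex g)
    obtain ⟨ι, hι⟩ := exists_io' (M := K) hz ⟨t, ht⟩
    have hrep : ∀ c d : Gal(F/K) → Module.End ℂ W, c 1 = 1 →
        (∀ σ τ, c (σ * τ) = (if fx z σ then c τ else d τ) * c σ) →
        ∃ ρ : Representation ℂ Gal(F/K) W, ∀ σ, ρ σ⁻¹ = c σ := fun c d h1 hm =>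
      ⟨{ toFun := fun σ => c σ⁻¹
         map_one' := by rw [inv_one, h1]
         map_mul' := fun σ τ => by rw [mul_inv_rev, hm, if_pos (hex _)] }, fun σ => by
        show c (σ⁻¹)⁻¹ = c σ
        rw [inv_inv]⟩
    obtain ⟨ρa, hρa⟩ := hrep a b S.a1 S.am
    obtain ⟨ρb, hρb⟩ := hrep b a S.b1 S.bm
    obtain ⟨⟨R, hR, hR1⟩, -⟩ := rep_nv hf hr ι hwo ρa
    obtain ⟨-, ⟨R', hR', hR1'⟩⟩ := rep_nv hf hr ι hwo ρb
    simp only [hρa] at hR
    simp only [hρb] at hR'
    have hRR := hR.mul hR'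
    refine ⟨_, hRR.mero, hRR.an, fun s hs => ?_, mul_ne_zero hR1 hR1'⟩
    rw [hRR.eq s hs]
    exact euler_lin hz hex S hι hK hwo hx hφ hs

end

end Pool.Agent.H508.S
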