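import Pool.Agent.H508.R.A6
import Pool.Graph.R_seed8.Y696.EvAll

/-!
# The values of the Hecke character at the primes of an arbitrary field
-/

set_option autoImplicit false
set_option linter.unusedSectionVars false
set_option linter.style.haveILetI false

open Complex NumberField IsDedekindDomain

namespace Pool.Agent.H508.S

open Pool.Agent.K7.H70.EQ (HH avg frob_conj avg_pow avg_fin det_exp)
open Pool.Agent.K7.H70.SE (GoodG und0_tower exists_above ps rt rd RdOk lt rt_a rt_spec)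
open Pool.Agent.Y696 (nK und0 card_nm aV_inert eis om bel mem_bel deg_base exists_prim psi_prim E0
  unit_mod exists_prime_mem)
open Pool.Agent.Y688 (RR wR w wR_coe)
open Pool.Agent.R430 (PN PN_prime PN_three PN_good iE tE tR)
open Pool.Agent.W192.HK (sp)
open Pool.Agent.W189.NF (aV eV)
open Pool.Agent.K7.H70.AW
open Pool.Agent.K7.H65.FP (Semi opP opP_pos opP_neg trace_opP_pos trace_opP_neg fx fx_one fx_mul
  z_case z_ne fx_inertia fx_frob toC' toC'_apply toC_add toC_mul)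
open Pool.Agent.Y692.QS (toC Ei nr)
open IntermediateField (fixedField subgroupEquivAlgEquiv)
open Pool.Agent.H508.D Pool.Agent.H508.R
open scoped Classical

section
variable {M : Type} [Field M] [NumberField M] {ι : RR →+* 𝓞 M} {u : HeightOneSpectrum (𝓞 M)}

/-- the value of the Hecke character is a power of a primary prime element -/
theorem PN_pow (h3 : (3 : 𝓞 M) ∉ u.asIdeal) :
    ∃ (α : RR) (f : ℕ), 0 < f ∧ Prime α ∧ (3 : RR) ∣ α - 1 ∧
      (starRingEnd ℂ) (PN ι u.asIdeal) = ((α ^ f : RR) : ℂ) ∧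
      ∀ y : RR, ι y ∈ u.asIdeal ↔ α ∣ y := by
  obtain ⟨f, hf0, hf⟩ := deg_base (iE ι) u
  have h1 := PN_prime (ι := ι) u hf
  have hcop : IsCoprime (bel (iE ι) u).asIdeal (sp 3) := by
    have hpmax : (bel (iE ι) u).asIdeal.IsMaximal := (bel (iE ι) u).isPrime.isMaximal (bel (iE ι) u).ne_bot
    rw [Ideal.isCoprime_iff_sup_eq]
    by_contra hne
    obtain ⟨M', hM, hle⟩ := Ideal.exists_le_maximal _ hne
    have h4 : (bel (iE ι) u).asIdeal = M' := hpmax.eq_of_le hM.ne_top (le_sup_left.trans hle)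
    have h5 : (3 : eis) ∈ (bel (iE ι) u).asIdeal := by
      rw [h4]
      exact hle (Ideal.mem_sup_right (Ideal.mem_span_singleton_self 3))
    rw [mem_bel, map_ofNat] at h5
    exact h3 h5
  obtain ⟨α, hα1, hα2⟩ := exists_prim hcop
  have hcrit : ∀ y : RR, ι y ∈ u.asIdeal ↔ tR α ∣ y := by
    intro y
    have e1 : ι y ∈ u.asIdeal ↔ tE y ∈ (bel (iE ι) u).asIdeal := by
      rw [mem_bel]
      exact Iff.rfl
    rw [e1, hα1, Ideal.mem_span_singleton]
    constructor
    · rintro ⟨k, hk⟩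
      refine ⟨tR k, ?_⟩
      have := congrArg tR hk
      exact this
    · rintro ⟨k, hk⟩
      refine ⟨tE k, ?_⟩
      have := congrArg tE hk
      exact this
  refine ⟨tR α, f, hf0, ⟨?_, ?_, ?_⟩, ?_, ?_, hcrit⟩
  · intro h0
    obtain ⟨p, hp, hpu⟩ := exists_prime_mem u
    have h2 : ι (p : RR) ∈ u.asIdeal := by rwa [map_natCast]
    rw [hcrit, h0, zero_dvd_iff, Nat.cast_eq_zero] at h2
    exact hp.ne_zero h2
  · intro hu
    have h2 : ι 1 ∈ u.asIdeal := (hcrit 1).2 hu.dvd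
    rw [map_one] at h2
    exact u.isPrime.ne_top ((Ideal.eq_top_iff_one _).2 h2)
  · intro a b hab
    rw [← hcrit, map_mul] at hab
    rw [← hcrit, ← hcrit]
    exact u.isPrime.mem_or_mem hab
  · obtain ⟨k, hk⟩ := Ideal.mem_span_singleton.1 hα2
    exact ⟨tR k, congrArg tR hk⟩
  · rw [h1, map_pow, Complex.conj_conj, hα1, psi_prim hα2]
    push_cast
    rfl

lemma cR_cR (r : RR) : cR (cR r) = r := Subtype.ext (by
  rw [cR_coe, cR_coe, Complex.conj_conj])

lemma cR_dvd {a b : RR} (h : a ∣ b) : cR a ∣ cR b := by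
  obtain ⟨k, rfl⟩ := h
  rw [map_mul]
  exact dvd_mul_right _ _

lemma cR_prime {a : RR} (h : Prime a) : Prime (cR a) := by
  refine ⟨fun h0 => h.ne_zero ?_, fun hu => h.not_unit ?_, fun x y hxy => ?_⟩
  · rw [← cR_cR a, h0, map_zero]
  · rw [← cR_cR a]
    exact hu.map cR
  · have h1 := cR_dvd hxy
    rw [cR_cR, map_mul] at h1
    rcases h.dvd_or_dvd h1 with h2 | h2
    · left
      have := cR_dvd h2
      rwa [cR_cR] at this
    · right
      have := cR_dvd h2
      rwa [cR_cR] at this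

/-- a primary prime element which divides its conjugate is real -/
lemma cR_eq {α : RR} (hα : Prime α) (h3 : (3 : RR) ∣ α - 1) (h : cR α ∣ α) : cR α = α := by
  have h' : α ∣ cR α := by
    have := cR_dvd h
    rwa [cR_cR] at this
  obtain ⟨ε, hε⟩ := associated_of_dvd_dvd h' h
  have hc : (3 : RR) ∣ cR α - 1 := by
    have := cR_dvd h3
    rwa [map_sub, map_one, map_ofNat] at this
  have h4 : (3 : RR) ∣ α * ((ε : RR) - 1) := by
    have h5 : α * ((ε : RR) - 1) = (cR α - 1) - (α - 1) := by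
      rw [← hε]
      ring
    rw [h5]
    exact dvd_sub hc h3
  have hcop : IsCoprime (3 : RR) α := by
    obtain ⟨k, hk⟩ := h3
    exact ⟨-k, 1, by linear_combination hk⟩
  have h6 : (3 : RR) ∣ (ε : RR) - 1 := hcop.dvd_of_dvd_mul_left h4
  have h7 : tE (ε : RR) = 1 := by
    refine unit_mod (u := tE (ε : RR)) (v := 1) ?_ isUnit_one ?_
    · refine IsUnit.of_mul_eq_one (tE ((ε⁻¹ : RRˣ) : RR)) ?_
      have := congrArg tE (ε.mul_inv)
      exact this
    · obtain ⟨k, hk⟩ := h6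
      exact Ideal.mem_span_singleton.2 ⟨tE k, congrArg tE hk⟩
  have h8 : (ε : RR) = 1 := congrArg tR h7
  rw [← hε, h8, mul_one]

end

section
variable {M F : Type} [Field M] [NumberField M] [Field F] [NumberField F] [Algebra M F]
  {z : 𝓞 F} {ι : RR →+* 𝓞 M} {W : HeightOneSpectrum (𝓞 F)}

/-- the orientation -/
theorem PN_first (hz : z * z = -1 - z) (hι : algebraMap (𝓞 M) (𝓞 F) (ι wR) = -1 - z)
    (h3 : (3 : 𝓞 F) ∉ W.asIdeal) {x : Ei} (hxW : (x.re : 𝓞 F) + x.im * z ∈ W.asIdeal)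
    (hor : PN ι (und0 M W).asIdeal = toC x ∨ PN ι (und0 M W).asIdeal = toC' x) :
    PN ι (und0 M W).asIdeal = toC x := by
  rcases hor with h | h
  · exact h
  have h3' : (3 : 𝓞 M) ∉ (und0 M W).asIdeal := fun h => h3 (Pool.Agent.K7.H70.SE.mem_und0.1 h)
  obtain ⟨α, f, hf, hα, hα3, hPN, hcrit⟩ := PN_pow (ι := ι) h3'
  obtain ⟨y', hy1', hy2'⟩ := toC_RR x
  have hyy : α ^ f = y' := Subtype.ext (by
    rw [← hPN, h, toC'_apply, Complex.conj_conj, hy1'])
  have h4 : ι y' ∈ (und0 M W).asIdeal := (hcrit y').2 (hyy ▸ dvd_pow_self α hf.ne')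
  have h5 : algebraMap (𝓞 M) (𝓞 F) (ι y') ∈ W.asIdeal := h4
  rw [hy2', map_add, map_mul, map_intCast, map_intCast, map_add, map_mul, map_intCast,
    map_intCast, hι] at h5
  have h6 : (x.im : 𝓞 F) * 3 ∈ W.asIdeal := by
    have h7 := W.asIdeal.mul_mem_left (2 * z + 1) (W.asIdeal.sub_mem hxW h5)
    have h8 : (2 * z + 1) * ((x.re : 𝓞 F) + x.im * z - ((x.re : 𝓞 F) + x.im * (-1 - z))) =
        -((x.im : 𝓞 F) * 3) := by linear_combination 4 * (x.im : 𝓞 F) * hz
    rw [h8] at h7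
    have h9 := W.asIdeal.neg_mem h7
    rwa [neg_neg] at h9
  have hWp := W.isPrime
  have hr : (x.im : 𝓞 F) ∈ W.asIdeal := (hWp.mem_or_mem h6).resolve_right h3
  have hr2 : (x.re : 𝓞 F) ∈ W.asIdeal := by
    have h7 := W.asIdeal.sub_mem hxW (W.asIdeal.mul_mem_right z hr)
    rwa [add_sub_cancel_right] at h7
  obtain ⟨p, hp, hpW⟩ := exists_prime_mem W
  have hdiv : ∀ n : ℤ, (n : 𝓞 F) ∈ W.asIdeal → (p : ℤ) ∣ n := by
    intro n hn
    by_contra hcon
    have hcop : IsCoprime (p : ℤ) n := (Nat.prime_iff_prime_int.1 hp).coprime_iff_not_dvd.2 hcon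
    obtain ⟨s, t, hst⟩ := hcop
    apply hWp.ne_top
    rw [Ideal.eq_top_iff_one]
    have h7 := W.asIdeal.add_mem (W.asIdeal.mul_mem_left (s : 𝓞 F) hpW)
      (W.asIdeal.mul_mem_left (t : 𝓞 F) hn)
    have h8 : (s : 𝓞 F) * (p : 𝓞 F) + (t : 𝓞 F) * (n : 𝓞 F) = 1 := by exact_mod_cast hst
    rwa [h8] at h7
  obtain ⟨s, hs⟩ := hdiv _ hr
  obtain ⟨t, ht⟩ := hdiv _ hr2
  -- the conjugate of the prime element divides the element
  have hpy : (p : RR) ∣ y' := by
    refine ⟨(t : RR) + (s : RR) * wR, ?_⟩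
    rw [hy2', hs, ht]
    push_cast
    ring
  have hαp : α ∣ (p : RR) := by
    rw [← hcrit, map_natCast]
    show algebraMap (𝓞 M) (𝓞 F) ((p : ℕ) : 𝓞 M) ∈ W.asIdeal
    rw [map_natCast]
    exact hpW
  have hcp : cR α ∣ (p : RR) := by
    have := cR_dvd hαp
    rwa [map_natCast] at this
  have hcα : cR α ∣ α := (cR_prime hα).dvd_of_dvd_pow (hyy ▸ hcp.trans hpy)
  have hreal := cR_eq hα hα3 hcα
  have h9 : (starRingEnd ℂ) ((α : RR) : ℂ) = (α : RR) := by
    rw [← cR_coe, hreal]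
  have h10 : (starRingEnd ℂ) (PN ι (und0 M W).asIdeal) = PN ι (und0 M W).asIdeal := by
    rw [← Complex.conj_conj (PN ι (und0 M W).asIdeal), hPN, Complex.conj_conj]
    push_cast
    rw [map_pow, h9]
  rw [← h10, h, toC'_apply, Complex.conj_conj]

end

end Pool.Agent.H508.S
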