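import Pool.Agent.H508.S.B1

/-!
# The split primes of an arbitrary field
-/

set_option autoImplicit false
set_option linter.unusedSectionVars false
set_option linter.style.haveILetI false

open Complex NumberField IsDedekindDomain

namespace Pool.Agent.H508.S

open Pool.Agent.K7.H70.EQ (HH avg frob_conj avg_pow avg_fin det_exp)
open Pool.Agent.K7.H70.SE (GoodG und0_tower exists_above ps rt rd RdOk lt rt_a rt_spec rt_lt)
open Pool.Agent.Y696 (nK und0 card_nm aV_inert eis om bel mem_bel deg_base exists_prim psi_prim E0)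
open Pool.Agent.Y688 (RR wR w wR_coe)
open Pool.Agent.R430 (PN PN_prime PN_three PN_good PN_sq iE tE tR)
open Pool.Agent.W192.HK (sp)
open Pool.Agent.W189.NF (aV eV)
open Pool.Agent.K7.H70.AW
open Pool.Agent.K7.H65.FP (Semi opP opP_pos opP_neg trace_opP_pos trace_opP_neg fx fx_one fx_mul
  z_case z_ne fx_inertia fx_frob toC' toC'_apply toC_add toC_mul prodMap_pow prodMap_inj card_mod3)
open Pool.Agent.Y692.QS (toC Ei nr toC_normSq)
open IntermediateField (fixedField subgroupEquivAlgEquiv)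
open Pool.Agent.H921R2.TatePole (two_le_nm)
open Pool.Agent.H508.D
open Pool.Agent.H508.R hiding PN_first
open scoped Classical

section
variable {K F : Type} [Field K] [NumberField K] [Field F] [NumberField F] [Algebra K F]
  [IsGalois K F] {z : 𝓞 F} {C : Subgroup Gal(F/K)}
  {wo : HeightOneSpectrum (𝓞 K) → HeightOneSpectrum (𝓞 F)}
  {W : Type} [AddCommGroup W] [Module ℂ W] [FiniteDimensional ℂ W]
  {a b : Gal(F/K) → Module.End ℂ W} {ι : RR →+* 𝓞 (fixedField C)}

variable (hz : z * z = -1 - z) (hC : ∀ σ, σ ∈ C ↔ fx z σ) {τ : Gal(F/K)} (hτ : ¬ fx z τ)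
  (hwo : ∀ v, und0 K (wo v) = v) (S : Semi (fx z) a b)

include hz hC hτ hwo S in
theorem DD_split' (hι : algebraMap (𝓞 (fixedField C)) (𝓞 F) (ι wR) = -1 - z)
    (hK : GoodG K) (hM : GoodG (fixedField C))
    {v : HeightOneSpectrum (𝓞 K)} (h3 : (3 : 𝓞 K) ∉ v.asIdeal) (hq : nK v % 3 = 1)
    {x : Ei} (hx : nr x = nK v) (hx2 : 2 * x.re - x.im = aV (E0 K) v)
    (hxW : (x.re : 𝓞 F) + x.im * z ∈ (wo v).asIdeal) {m : ℕ} (hm : 0 < m) :
    DD C a wo ι v m = av K (fun g => LinearMap.trace ℂ W (a g)) (wo v) m * toC x ^ m +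
      av K (fun g => LinearMap.trace ℂ W (b g)) (wo v) m * toC' x ^ m := by
  obtain ⟨W', hW'⟩ : ∃ W', wo v = W' := ⟨_, rfl⟩
  have hv : v = und0 K W' := by rw [← hW', hwo]
  have hwx : wx C wo (und0 (fixedField C) W') = W' := by
    rw [← hW']
    exact wx_first hwo v
  rw [hW'] at hxW ⊢
  subst hv
  have h3F : (3 : 𝓞 F) ∉ W'.asIdeal := fun h => h3 (Pool.Agent.K7.H70.SE.mem_und0.2 h)
  obtain ⟨hrd, hcard⟩ := rd_one hz hC hτ h3F hq
  set f : {u : HeightOneSpectrum (𝓞 (fixedField C)) // und0 K u = und0 K W'} → ℂ := fun u =>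
    av (fixedField C) (dn C fun g => LinearMap.trace ℂ W (a g)) (wx C wo u.1) m with hf
  let u₁ : {u : HeightOneSpectrum (𝓞 (fixedField C)) // und0 K u = und0 K W'} :=
    ⟨und0 (fixedField C) W', und0_tower (M := fixedField C) W'⟩
  obtain ⟨u₂, hu2, huniv⟩ : ∃ u₂, u₁ ≠ u₂ ∧ (Finset.univ : Finset {u : HeightOneSpectrum
      (𝓞 (fixedField C)) // und0 K u = und0 K W'}) = {u₁, u₂} := by
    rw [← Finset.card_univ, Finset.card_eq_two] at hcard
    obtain ⟨p, r, hpr, hu⟩ := hcard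
    have h1 : u₁ ∈ (Finset.univ : Finset {u : HeightOneSpectrum
      (𝓞 (fixedField C)) // und0 K u = und0 K W'}) := Finset.mem_univ _
    rw [hu, Finset.mem_insert, Finset.mem_singleton] at h1
    rcases h1 with h1 | h1
    · exact ⟨r, by rw [h1]; exact hpr, by rw [h1, hu]⟩
    · exact ⟨p, by rw [h1]; exact hpr.symm, by rw [h1, hu, Finset.pair_comm]⟩
  have hD : DD C a wo ι (und0 K W') m = f u₁ * PN ι u₁.1.asIdeal ^ m +
      f u₂ * PN ι u₂.1.asIdeal ^ m := by
    unfold DD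
    rw [Finset.sum_congr rfl (g := fun u => f u * PN ι u.1.asIdeal ^ m) (fun u _ => by
      rw [hrd u, if_pos (one_dvd _), Nat.div_one, Nat.cast_one, one_mul]), huniv,
      Finset.sum_pair hu2]
  have hsum : f u₁ + f u₂ = av K (fun g => LinearMap.trace ℂ (W × W) (S.rep g⁻¹)) W' m := by
    rw [← sum_av S hC hτ (wx_und (wo := wo)) W' hm, ← Finset.sum_pair hu2, ← huniv]
    exact Finset.sum_congr rfl fun u _ => by
      rw [hrd u, if_pos (one_dvd _), Nat.div_one, Nat.cast_one, one_mul]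
  have hfr : ∀ g : Gal(F/K), Fr K W' (nK (und0 K W') ^ m) g → fx z g := fun g hg =>
    (fr_fx hz h3F hg).1 ((pow_mod m).1 hq)
  have hN : nK (und0 (fixedField C) W') = nK (und0 K W') := by
    have h1 := (rdOk_all (K := K) (M := fixedField C)).norm (und0 (fixedField C) W')
    have h2 : rd K (und0 (fixedField C) W') = 1 := hrd u₁
    rw [h1, h2, pow_one, und0_tower]
  have hf1 : f u₁ = av K (fun g => LinearMap.trace ℂ W (a g)) W' m := by
    show av (fixedField C) (dn C fun g => LinearMap.trace ℂ W (a g))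
      (wx C wo (und0 (fixedField C) W')) m = _
    rw [hwx]
    exact av_dn hN fun g hg => (hC g).2 (hfr g hg)
  have hadd : av K (fun g => LinearMap.trace ℂ (W × W) (S.rep g⁻¹)) W' m =
      av K (fun g => LinearMap.trace ℂ W (a g)) W' m +
        av K (fun g => LinearMap.trace ℂ W (b g)) W' m := by
    unfold av
    rw [← mul_add, ← Finset.sum_add_distrib]
    congr 1
    refine Finset.sum_congr rfl fun g _ => ?_
    show LinearMap.trace ℂ (W × W) (S.rep (g.1)⁻¹) = _
    rw [Semi.rep_apply, inv_inv, trace_opP_pos (hfr g.1 g.2)]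
  have hf2 : f u₂ = av K (fun g => LinearMap.trace ℂ W (b g)) W' m := by
    rw [hadd, hf1] at hsum
    exact add_left_cancel hsum
  -- the values of the Hecke character
  have hor : ∀ u : {u : HeightOneSpectrum (𝓞 (fixedField C)) // und0 K u = und0 K W'},
      PN ι u.1.asIdeal = toC x ∨ PN ι u.1.asIdeal = toC' x := by
    intro u
    have h3u : (3 : 𝓞 (fixedField C)) ∉ u.1.asIdeal := fun h => h3 (by
      rw [← u.2]
      exact Pool.Agent.K7.H70.SE.mem_und0.2 h)
    refine PN_split hK hM h3u (hrd u) ?_ ?_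
    · rw [u.2]; exact hx
    · rw [u.2]; exact hx2
  have hp1 : PN ι u₁.1.asIdeal = toC x := PN_first hz hι h3F hxW (hor u₁)
  have hp2 : PN ι u₂.1.asIdeal = toC' x := by
    -- a prime above the second prime
    obtain ⟨W₂, hW₂⟩ : ∃ W₂, W₂ = wx C wo u₂.1 := ⟨_, rfl⟩
    have hW2u : und0 (fixedField C) W₂ = u₂.1 := by rw [hW₂]; exact wx_und _
    have hu : W'.asIdeal.under (𝓞 K) = W₂.asIdeal.under (𝓞 K) := by
      have h1 : und0 K W' = und0 K W₂ := by
        rw [← und0_tower (M := fixedField C) W₂, hW2u, u₂.2]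
      exact congrArg HeightOneSpectrum.asIdeal h1
    have hq1 := W'.isPrime
    have hq2 := W₂.isPrime
    obtain ⟨g, hg⟩ := Algebra.IsInvariant.exists_smul_of_under_eq (𝓞 K) (𝓞 F) Gal(F/K)
      W'.asIdeal W₂.asIdeal hu
    have hmem : ∀ y : 𝓞 F, y ∈ W'.asIdeal → g • y ∈ W₂.asIdeal := fun y hy => by
      rw [hg]
      exact Ideal.smul_mem_pointwise_smul _ _ _ hy
    have hng : ¬ fx z g := by
      intro hfx
      apply hu2
      apply Subtype.ext
      rw [← hW2u]
      show und0 (fixedField C) W' = und0 (fixedField C) W₂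
      apply HeightOneSpectrum.ext
      ext t
      have hgC : g ∈ C := (hC g).2 hfx
      have hfixt : ∀ t : 𝓞 (fixedField C), g • algebraMap (𝓞 (fixedField C)) (𝓞 F) t =
          algebraMap (𝓞 (fixedField C)) (𝓞 F) t := fun t =>
        RingOfIntegers.ext ((t : fixedField C).2 ⟨g, hgC⟩)
      have e1 : t ∈ (und0 (fixedField C) W').asIdeal ↔
        algebraMap (𝓞 (fixedField C)) (𝓞 F) t ∈ W'.asIdeal := Iff.rfl
      have e2 : t ∈ (und0 (fixedField C) W₂).asIdeal ↔
        algebraMap (𝓞 (fixedField C)) (𝓞 F) t ∈ W₂.asIdeal := Iff.rfl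
      rw [e1, e2, hg, Ideal.mem_pointwise_smul_iff_inv_smul_mem]
      have e3 : g⁻¹ • algebraMap (𝓞 (fixedField C)) (𝓞 F) t =
          algebraMap (𝓞 (fixedField C)) (𝓞 F) t := by
        rw [inv_smul_eq_iff, hfixt]
      rw [e3]
    have hgz : g • z = -1 - z := (z_case hz g).resolve_left hng
    have h32 : (3 : 𝓞 F) ∉ W₂.asIdeal := fun h => h3F (by
      have h1 : (3 : 𝓞 K) ∈ W₂.asIdeal.under (𝓞 K) := by
        rw [Ideal.mem_comap, map_ofNat]
        exact h
      rw [← hu, Ideal.mem_comap, map_ofNat] at h1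
      exact h1)
    have hxW2 : ((star x).re : 𝓞 F) + (star x).im * z ∈ W₂.asIdeal := by
      have h1 := hmem _ hxW
      have h4 : g • ((x.re : 𝓞 F) + x.im * z) = ((star x).re : 𝓞 F) + (star x).im * z := by
        rw [smul_add, smul_mul', hgz, Pool.Agent.Y692.QS.star_re, Pool.Agent.Y692.QS.star_im]
        have e1 : g • (x.re : 𝓞 F) = x.re := by
          rw [← zsmul_one, smul_comm, smul_one]
        have e2 : g • (x.im : 𝓞 F) = x.im := by
          rw [← zsmul_one, smul_comm, smul_one]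
        rw [e1, e2]
        push_cast
        ring
      rwa [h4] at h1
    have hst : ∀ y : Ei, toC' (star y) = toC y ∧ toC (star y) = toC' y := fun y => by
      have h1 : toC (star y) = toC' y := Pool.Agent.Y692.QS.toC_star y
      exact ⟨by rw [toC'_apply, h1, toC'_apply, Complex.conj_conj], h1⟩
    have h5 : PN ι (und0 (fixedField C) W₂).asIdeal = toC (star x) := by
      refine PN_first hz hι h32 hxW2 ?_
      rw [hW2u, (hst x).1, (hst x).2]
      exact (hor u₂).symm
    rw [hW2u, (hst x).2] at h5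
    exact h5
  rw [hD, hf1, hf2, hp1, hp2]

include hz hC hτ hwo S in
/-- **the local factors** -/
theorem loc_all' (hι : algebraMap (𝓞 (fixedField C)) (𝓞 F) (ι wR) = -1 - z)
    (hK : GoodG K) (hM : GoodG (fixedField C)) {x : Ei} {v : HeightOneSpectrum (𝓞 K)}
    (hx : (3 : 𝓞 K) ∉ v.asIdeal → nK v % 3 = 1 → nr x = nK v ∧ 2 * x.re - x.im = aV (E0 K) v ∧
      (x.re : 𝓞 F) + x.im * z ∈ (wo v).asIdeal)
    {φ : Gal(F/K)} (hφ : ∀ y : 𝓞 F, φ • y - y ^ nK v ∈ (wo v).asIdeal) {s : ℂ} (hs : s ∈ HH) :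
    ∃ L : ℂ, HasSum (fun m : ℕ => tt C a wo ι s (v, m)) L ∧
      Complex.exp L = fac a b x v (wo v) φ s := by
  have hn0 : (nK v : ℂ) ≠ 0 := Nat.cast_ne_zero.2 (nK_ne v)
  have hp := (wo v).isPrime
  have hφI := frob_conj (nK_ne v) hφ
  have hφ' : ∀ y : 𝓞 F, φ • y - y ^ nK (und0 K (wo v)) ∈ (wo v).asIdeal := by rw [hwo]; exact hφ
  unfold fac
  by_cases h3 : (3 : 𝓞 K) ∈ v.asIdeal
  · rw [if_pos h3]
    refine ⟨0, ?_, Complex.exp_zero⟩
    have h1 : ∀ m : ℕ, tt C a wo ι s (v, m) = 0 := fun m => by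
      unfold tt
      simp only
      rw [DD_three h3 (Nat.succ_pos m), zero_mul, zero_div]
    rw [funext h1]
    exact hasSum_zero
  rw [if_neg h3]
  have h3F : (3 : 𝓞 F) ∉ (wo v).asIdeal := fun h => h3 (by
    rw [← hwo v]
    exact Pool.Agent.K7.H70.SE.mem_und0.2 h)
  have hI := fx_inertia (K := K) hz h3F
  have hra := rt_a hK v
  have hrm := (rt_spec hK h3).1
  have hrl := (rt_lt hK v hs).1
  set r := rt hK v with hr
  by_cases hq : nK v % 3 = 1
  · rw [if_pos hq]
    obtain ⟨hx1, hx2, hx3⟩ := hx h3 hq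
    have e2 : r * (starRingEnd ℂ) r = toC x * toC' x := by
      rw [hrm, toC_mul, hx1]
      push_cast
      rfl
    have e3 : ‖toC x‖ = ‖r‖ := by
      have h1 : ‖toC x‖ ^ 2 = ‖r‖ ^ 2 := by
        rw [← Complex.normSq_eq_norm_sq, ← Complex.normSq_eq_norm_sq]
        have h2 : ((Complex.normSq (toC x) : ℝ) : ℂ) = ((Complex.normSq r : ℝ) : ℂ) := by
          rw [← Complex.mul_conj, ← Complex.mul_conj]
          exact e2.symm
        exact_mod_cast h2
      exact (pow_left_inj₀ (norm_nonneg _) (norm_nonneg _) two_ne_zero).1 h1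
    have hα : ‖toC x * (nK v : ℂ) ^ (-s)‖ < 1 := by
      rw [norm_mul, e3, ← norm_mul]
      exact hrl
    have hβ : ‖toC' x * (nK v : ℂ) ^ (-s)‖ < 1 := by
      rw [norm_mul, toC'_apply, RCLike.norm_conj, e3, ← norm_mul]
      exact hrl
    have hfφ : fx z φ := (fx_frob hz h3F (hφ z)).1 hq
    obtain ⟨L, hL, he⟩ := loc_two S hI hfφ hφI hα hβ
    refine ⟨L, ?_, he⟩
    refine hL.congr_fun fun m => ?_
    unfold tt
    simp only
    rw [DD_split' hz hC hτ hwo S hι hK hM h3 hq hx1 hx2 hx3 (Nat.succ_pos m),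
      av_oav hφ', av_oav hφ', mul_pow, mul_pow]
    show (LinearMap.trace ℂ W (oav a _ (φ ^ (m + 1))) * toC x ^ (m + 1) +
      LinearMap.trace ℂ W (oav b _ (φ ^ (m + 1))) * toC' x ^ (m + 1)) * _ / _ = _
    ring
  · rw [if_neg hq]
    have hq2 : nK v % 3 = 2 := by
      have h5 := card_mod3 h3
      rw [card_nm] at h5
      exact h5.resolve_left hq
    have hnφ : ¬ fx z φ := (fx_frob hz h3F (hφ z)).2 hq2
    have ha0 : r + (starRingEnd ℂ) r = 0 := by
      rw [← hra, (aV_inert h3 hq2).1]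
      simp
    have hcr : (starRingEnd ℂ) r = -r := by linear_combination ha0
    have hr2 : r ^ 2 = -(nK v : ℂ) := by
      rw [hcr] at hrm
      linear_combination -hrm
    have hpow : (nK v : ℂ) ^ (1 - 2 * s) = (nK v : ℂ) * ((nK v : ℂ) ^ (-s)) ^ 2 := by
      rw [sub_eq_add_neg, Complex.cpow_add _ _ hn0, Complex.cpow_one, ← mul_neg,
        show (2 : ℂ) * -s = ((2 : ℕ) : ℂ) * -s by norm_num, Complex.cpow_nat_mul]
    have hlt : ‖-((nK v : ℂ) ^ (1 - 2 * s))‖ < 1 := by
      have : -((nK v : ℂ) ^ (1 - 2 * s)) = (r * (nK v : ℂ) ^ (-s)) ^ 2 := by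
        rw [mul_pow, hr2, hpow]
        ring
      rw [this, norm_pow]
      exact pow_lt_one₀ (norm_nonneg _) hrl two_ne_zero
    obtain ⟨L, hL, he⟩ := S.loc_neg hI hnφ hφI hlt
      (t := fun m => if 2 ∣ m + 1 then (-((nK v : ℂ) ^ (1 - 2 * s))) ^ ((m + 1) / 2) /
        (((m + 1) / 2 : ℕ) : ℂ) else 0)
      (fun k => if_neg (by omega)) (fun k => by
        show (if 2 ∣ 2 * k + 1 + 1 then _ else _) = _
        rw [if_pos (by omega), show (2 * k + 1 + 1) / 2 = k + 1 by omega]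
        push_cast
        rfl)
    refine ⟨L, ?_, ?_⟩
    · have h1 := hL.mul_left (2 : ℂ)⁻¹
      rw [inv_mul_cancel_left₀ two_ne_zero] at h1
      refine h1.congr_fun fun m => ?_
      unfold tt
      simp only
      rw [DD_inert hz hC hτ S hK hM (hwo v) h3 hq2 (Nat.succ_pos m), ← av_trace S.rep hφ' m,
        avg_pow _ _ hφI]
      by_cases hd : 2 ∣ m + 1
      · rw [if_pos hd, if_pos hd]
        obtain ⟨k, hk⟩ := hd
        have hk0 : (k : ℂ) ≠ 0 := by
          have : k ≠ 0 := by omega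
          exact_mod_cast this
        have hk2 : (m + 1) / 2 = k := by omega
        have hm1 : ((m : ℂ) + 1) = 2 * k := by exact_mod_cast hk
        rw [hk2, hm1, hpow, hk, pow_mul]
        field_simp
        ring
      · rw [if_neg hd, if_neg hd]
        ring
    · rw [he, neg_smul, sub_neg_eq_add]

include hz hC hτ hwo S in
/-- **the Euler product over the base field** -/
theorem euler_semi' (hι : algebraMap (𝓞 (fixedField C)) (𝓞 F) (ι wR) = -1 - z)
    (hK : GoodG K) (hM : GoodG (fixedField C)) {x : HeightOneSpectrum (𝓞 K) → Ei}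
    (hx : ∀ v, (3 : 𝓞 K) ∉ v.asIdeal → nK v % 3 = 1 → nr (x v) = nK v ∧
      2 * (x v).re - (x v).im = aV (E0 K) v ∧ ((x v).re : 𝓞 F) + (x v).im * z ∈ (wo v).asIdeal)
    {φ : HeightOneSpectrum (𝓞 K) → Gal(F/K)}
    (hφ : ∀ v, ∀ y : 𝓞 F, φ v • y - y ^ nK v ∈ (wo v).asIdeal) {s : ℂ} (hs : s ∈ HH) :
    HasProd (fun v => fac a b (x v) v (wo v) (φ v) s)
      (Complex.exp (LL (fixedField C) (PW ι) (wx C wo)
        (dn C fun g => LinearMap.trace ℂ W (a g)) s)) := by
  choose L hL he using fun v => loc_all' hz hC hτ hwo S hι hK hM (hx v) (hφ v) hs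
  have h1 := (tt_sum (C := C) (a := a) (wo := wo) (ι := ι) hs).prod_fiberwise hL
  have h2 := h1.cexp
  refine HasProd.congr_fun h2 fun v => ?_
  exact (he v).symm

end

end Pool.Agent.H508.S
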