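import Pool.Graph.R_pool_sql_team_seeded_35f281b4.H76.BKT.Sel
import Pool.Graph.R_seed8.Y700.VC
import Pool.Graph.R_seed8.Y692.QS.Ei

/-!
# The endomorphisms of `y² + y = x³` given by the Eisenstein integers, and the Tate module of a form

The definitions of the Bloch–Kato Selmer group at two of the abelian varieties over a number field `K`
which become isomorphic to a power of `E : y² + y = x³` over a Galois extension `F` of `K`.
-/

set_option autoImplicit false
set_option linter.unusedSectionVars false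

open WeierstrassCurve IsDedekindDomain NumberField
open scoped Classical Matrix

namespace Pool.Agent.H508.S

open Pool.Agent.TH841.SH.D (Pt act Gal)

/-- The elliptic curve `E : y² + y = x³` over `K`.  The points of `E` over an extension `L` of `K` are
`Pt (E K) L`, and `act (E K) φ` is the map on points given by a homomorphism `φ` of extensions of `K`. -/
abbrev E (K : Type) [Field K] : WeierstrassCurve K := Pool.Agent.Y696.E0 K

/-- The ring `ℤ[ω]` with `ω² = -1 - ω`; the element `⟨a, b⟩` is `a + b ω`. -/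
abbrev Eis : Type := QuadraticAlgebra ℤ (-1) (-1)

section points

variable {K L : Type} [Field K] [CharZero K] [Field L] [Algebra K L] {t : L}

omit [CharZero K] [Algebra K L] in
theorem cube_eq (ht : t * t = -1 - t) : t ^ 3 = 1 := by
  linear_combination (t - 1) * ht

omit [CharZero K] in
theorem bc_eq (K L : Type) [Field K] [Field L] [Algebra K L] :
    (E K).baseChange L = ⟨0, 0, 1, 0, 0⟩ := by
  unfold E WeierstrassCurve.baseChange WeierstrassCurve.map Pool.Agent.Y696.E0
  simp

theorem vr_omega (ht : t * t = -1 - t) :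
    Pool.Agent.Y700.VR ((E K).baseChange L) ((E K).baseChange L) (t ^ 2) 0 0 0 := by
  have h3 := cube_eq ht
  rw [bc_eq]
  refine ⟨?_, ?_, ?_, ?_, ?_, ?_⟩
  · intro h
    have : t = 0 := pow_eq_zero_iff two_ne_zero |>.1 h
    rw [this] at h3
    norm_num at h3
  · ring
  · ring
  · linear_combination (t ^ 3 + 1) * h3
  · ring
  · ring

theorem delta_ne (K L : Type) [Field K] [CharZero K] [Field L] [Algebra K L] :
    ((E K).baseChange L).Δ ≠ 0 := by
  have hL : CharZero L := charZero_of_injective_algebraMap (algebraMap K L).injective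
  rw [bc_eq]
  simp [WeierstrassCurve.Δ, WeierstrassCurve.b₂, WeierstrassCurve.b₄, WeierstrassCurve.b₆,
      WeierstrassCurve.b₈]

theorem nonsingular_omega (ht : t * t = -1 - t) {x y : L}
    (h : ((E K).baseChange L).toAffine.Nonsingular x y) :
    ((E K).baseChange L).toAffine.Nonsingular (t * x) y := by
  have h3 := cube_eq ht
  have h1 := Pool.Agent.Y700.nonsing (delta_ne K L) ((vr_omega ht).eqn.2 h.1)
  have e1 : (t ^ 2) ^ 2 * x + 0 = t * x := by linear_combination t * x * h3
  have e2 : (t ^ 2) ^ 3 * y + (t ^ 2) ^ 2 * 0 * x + 0 = y := by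
    linear_combination y * (t ^ 3 + 1) * h3
  rw [e1, e2] at h1
  exact h1

/-- The map `(x, y) ↦ (t x, y)` from `E(L)` to `E(L)`, for `t` in `L` with `t² = -1 - t`, a primitive
cube root of unity; the point at infinity is fixed. -/
noncomputable def omegaFun (ht : t * t = -1 - t) : Pt (E K) L → Pt (E K) L
  | .zero => .zero
  | .some x y h => .some (t * x) y (nonsingular_omega ht h)

theorem omegaFun_eq (ht : t * t = -1 - t) (P : Pt (E K) L) :
    omegaFun ht P = (vr_omega ht).fn (delta_ne K L) P := by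
  match P with
  | .zero => rfl
  | .some x y h =>
    show Affine.Point.some (t * x) y _ = Affine.Point.some _ _ _
    have h3 := cube_eq ht
    have e1 : t * x = (t ^ 2) ^ 2 * x + 0 := by linear_combination -t * x * h3
    have e2 : y = (t ^ 2) ^ 3 * y + (t ^ 2) ^ 2 * 0 * x + 0 := by
      linear_combination -y * (t ^ 3 + 1) * h3
    congr 1

/-- The endomorphism `[ω] : (x, y) ↦ (t x, y)` of the group `E(L)`. -/
noncomputable def omega (ht : t * t = -1 - t) : Pt (E K) L →+ Pt (E K) L where
  toFun := omegaFun ht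
  map_zero' := rfl
  map_add' P Q := by
    rw [omegaFun_eq, omegaFun_eq, omegaFun_eq]
    exact (vr_omega ht).fn_add (delta_ne K L) P Q

/-- The endomorphism `a + b [ω]` of `E(L)` given by the element `a + b ω` of `ℤ[ω]`. -/
noncomputable def endo (ht : t * t = -1 - t) (x : Eis) : Pt (E K) L →+ Pt (E K) L :=
  x.re • AddMonoidHom.id (Pt (E K) L) + x.im • omega ht

theorem endo_apply (ht : t * t = -1 - t) (x : Eis) (P : Pt (E K) L) :
    endo ht x P = x.re • P + x.im • omega ht P := rfl

theorem endo_zero (ht : t * t = -1 - t) (P : Pt (E K) L) : endo ht 0 P = 0 := by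
  rw [endo_apply]
  show (0 : ℤ) • P + (0 : ℤ) • _ = 0
  rw [zero_smul, zero_smul, add_zero]

theorem endo_one (ht : t * t = -1 - t) (P : Pt (E K) L) : endo ht 1 P = P := by
  rw [endo_apply]
  show (1 : ℤ) • P + (0 : ℤ) • _ = P
  rw [one_smul, zero_smul, add_zero]

variable {L' : Type} [Field L'] [Algebra K L'] {t' : L'}

/-- a homomorphism of fields and the endomorphism -/
theorem act_omega (ht : t * t = -1 - t) (ht' : t' * t' = -1 - t') (φ : L →ₐ[K] L') (h : φ t = t')
    (P : Pt (E K) L) : act (E K) φ (omega ht P) = omega ht' (act (E K) φ P) := by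
  match P with
  | .zero => rfl
  | .some x y h0 =>
    show (Affine.Point.some (φ (t * x)) (φ y) _ : ((E K).baseChange L').toAffine.Point) =
        Affine.Point.some (t' * φ x) (φ y) _
    congr 1
    rw [map_mul, h]

theorem act_endo (ht : t * t = -1 - t) (ht' : t' * t' = -1 - t') (φ : L →ₐ[K] L') (h : φ t = t')
    (a : Eis) (P : Pt (E K) L) : act (E K) φ (endo ht a P) = endo ht' a (act (E K) φ P) := by
  rw [endo_apply, endo_apply, map_add, map_zsmul, map_zsmul, act_omega ht ht' φ h]

end points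

section root

variable {F : Type} [Field F] {z : 𝓞 F}

theorem map_root {L : Type} [Field L] (hz : z * z = -1 - z) (j : F →+* L) :
    j (z : F) * j (z : F) = -1 - j (z : F) := by
  have h := congrArg (algebraMap (𝓞 F) F) hz
  rw [map_mul, map_sub, map_neg, map_one] at h
  rw [← map_mul, h, map_sub, map_neg, map_one]

end root

section selmer

variable {K F : Type} [Field K] [CharZero K] [Field F] [Algebra K F] {g : ℕ} {z : 𝓞 F}

/-- `V₂(E)`: the sequences `x₀, x₁, …` of points of `E` over the algebraic closure, of `2`-power order,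
with `2 xₙ₊₁ = xₙ` (`xₙ` is the class of `2⁻ⁿ x` in `V₂(E) / T₂(E) = E[2 ^ ∞]`). -/
def InV (x : ℕ → Pt (E K) (AlgebraicClosure K)) : Prop :=
  ∀ n, 2 • x (n + 1) = x n ∧ ∃ a : ℕ, (2 ^ a : ℕ) • x n = 0

/-- The restriction of `σ` to the subfield `j(F)` of the algebraic closure is `s`. -/
def Restr (j : F →ₐ[K] AlgebraicClosure K) (σ : Gal K) (s : Gal(F/K)) : Prop :=
  ∀ x, σ (j x) = j (s x)

/-- The action of `σ` on the points of `A` over the algebraic closure of `K`, where `s` is the restriction
of `σ` to `F`: `P ↦ c(s) (σ P)`. -/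
noncomputable def actA (hz : z * z = -1 - z) (j : F →ₐ[K] AlgebraicClosure K)
    (c : Gal(F/K) → Matrix (Fin g) (Fin g) Eis) (s : Gal(F/K)) (σ : Gal K)
    (P : Fin g → Pt (E K) (AlgebraicClosure K)) (i : Fin g) : Pt (E K) (AlgebraicClosure K) :=
  ∑ k, endo (map_root hz j.toRingHom) (c s i k) (act (E K) σ.toAlgHom (P k))

/-- The same for the algebraic closure of an extension `Kv` of `K`, where `ι` is an embedding of the
algebraic closures: `τ` acts on the points by `P ↦ c(s) (τ P)`, where `s` is the restriction of `τ`. -/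
noncomputable def actLoc (hz : z * z = -1 - z) (j : F →ₐ[K] AlgebraicClosure K)
    (c : Gal(F/K) → Matrix (Fin g) (Fin g) Eis) {Kv : Type} [Field Kv] [Algebra K Kv]
    (ι : AlgebraicClosure K →ₐ[K] AlgebraicClosure Kv) (s : Gal(F/K)) (τ : Gal Kv)
    (P : Fin g → Pt (E K) (AlgebraicClosure Kv)) (i : Fin g) : Pt (E K) (AlgebraicClosure Kv) :=
  ∑ k, endo (map_root hz (ι.toRingHom.comp j.toRingHom)) (c s i k)
    (act (E K) (τ.toAlgHom.restrictScalars K) (P k))

/-- `d` is a continuous cocycle of the absolute Galois group of `K` with values in `V₂(A)`, which is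
`V₂(E)^g` with the action `actA`. -/
structure IsCocycle (hz : z * z = -1 - z) (j : F →ₐ[K] AlgebraicClosure K)
    (c : Gal(F/K) → Matrix (Fin g) (Fin g) Eis)
    (d : Gal K → Fin g → ℕ → Pt (E K) (AlgebraicClosure K)) : Prop where
  cont : ∀ i n, IsLocallyConstant fun σ => d σ i n
  mem : ∀ σ i, InV (d σ i)
  mul : ∀ σ τ s, Restr j σ s → ∀ i n,
    d (σ * τ) i n = d σ i n + actA hz j c s σ (fun k => d τ k n) i

/-- The local condition over the extension `Kv` of `K`: the restriction of `d` to the absolute Galois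
group of `Kv` is in the image of the Kummer map of `A`: it is `σ ↦ σ Q - Q` for a sequence of points
`Q₀, Q₁, …` of `A` over the algebraic closure of `Kv` with `2 Qₙ₊₁ = Qₙ`. -/
def LocalCondition (hz : z * z = -1 - z) (j : F →ₐ[K] AlgebraicClosure K)
    (c : Gal(F/K) → Matrix (Fin g) (Fin g) Eis) (Kv : Type) [Field Kv] [Algebra K Kv]
    (d : Gal K → Fin g → ℕ → Pt (E K) (AlgebraicClosure K)) : Prop :=
  ∀ ι : AlgebraicClosure K →ₐ[K] AlgebraicClosure Kv,
    ∃ Q : Fin g → ℕ → Pt (E K) (AlgebraicClosure Kv), (∀ i n, 2 • Q i (n + 1) = Q i n) ∧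
    ∀ (τ : Gal Kv) (σ : Gal K), (∀ x, τ (ι x) = ι (σ x)) → ∀ s, Restr j σ s → ∀ i n,
      act (E K) ι (d σ i n) = actLoc hz j c ι s τ (fun k => Q k n) i - Q i n

/-- `d` is a coboundary: `d σ = σ x - x` for an element `x` of `V₂(A)`. -/
def IsCoboundary (hz : z * z = -1 - z) (j : F →ₐ[K] AlgebraicClosure K)
    (c : Gal(F/K) → Matrix (Fin g) (Fin g) Eis)
    (d : Gal K → Fin g → ℕ → Pt (E K) (AlgebraicClosure K)) : Prop :=
  ∃ x : Fin g → ℕ → Pt (E K) (AlgebraicClosure K), (∀ i, InV (x i)) ∧
    ∀ σ s, Restr j σ s → ∀ i n, d σ i n = actA hz j c s σ (fun k => x k n) i - x i n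

/-- The Bloch–Kato Selmer group `H¹_f(K, V₂(A))` is zero. -/
def SelmerZero [NumberField K] (hz : z * z = -1 - z) (j : F →ₐ[K] AlgebraicClosure K)
    (c : Gal(F/K) → Matrix (Fin g) (Fin g) Eis) : Prop :=
  ∀ d : Gal K → Fin g → ℕ → Pt (E K) (AlgebraicClosure K), IsCocycle hz j c d →
    (∀ v : HeightOneSpectrum (𝓞 K), LocalCondition hz j c (v.adicCompletion K) d) →
    IsCoboundary hz j c d

/-- `H⁰(K, V₂(A))` is zero. -/
def InvariantsZero (hz : z * z = -1 - z) (j : F →ₐ[K] AlgebraicClosure K)
    (c : Gal(F/K) → Matrix (Fin g) (Fin g) Eis) : Prop :=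
  ∀ x : Fin g → ℕ → Pt (E K) (AlgebraicClosure K), (∀ i, InV (x i)) →
    (∀ σ s, Restr j σ s → ∀ i n, actA hz j c s σ (fun k => x k n) i = x i n) → ∀ i n, x i n = 0

end selmer

end Pool.Agent.H508.S
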