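import Pool.Agent.H508.S.C1

/-!
# The Bloch–Kato Selmer group at two of a form of a power of `y² + y = x³`
-/

set_option autoImplicit false
set_option linter.unusedSectionVars false

open WeierstrassCurve IsDedekindDomain NumberField
open scoped Classical Matrix

namespace Pool.Agent.H508.S

open Pool.Agent.Y696 (E0 act_act act_inj)
open Pool.Agent.TH841.SH.D
open Pool.Agent.Y664.QA
open Pool.Agent.Y667.BKP
open Pool.Agent.K7.H70.ST
open Pool.Agent.H76.BKT (exists_e sha2 tor2 locKum_closed pt2 map_pt2)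

section main
variable {K F : Type} [Field K] [NumberField K] [Field F] [NumberField F] [Algebra K F] {g : ℕ}
  {z : 𝓞 F} {j : F →ₐ[K] AlgebraicClosure K} {c : Gal(F/K) → Matrix (Fin g) (Fin g) Eis}
  {d : Pool.Agent.TH841.SH.D.Gal K → Fin g → ℕ → Pt (E K) (AlgebraicClosure K)}

omit [NumberField K] [Algebra K F] in
lemma closed_z (hz : z * z = -1 - z) (v : InfinitePlace F) : IsAlgClosed v.Completion := by
  have hv : v.IsComplex := by
    rw [← InfinitePlace.not_isReal_iff_isComplex]
    intro h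
    have h1 : (starRingEnd ℂ) (v.embedding (z : F)) = v.embedding (z : F) := by
      have h2 := InfinitePlace.isReal_iff.1 h
      exact RingHom.congr_fun h2 (z : F)
    have h3 := map_root hz v.embedding
    obtain ⟨r, hr⟩ := Complex.conj_eq_iff_real.1 h1
    rw [hr] at h3
    have h4 : r * r = -1 - r := by exact_mod_cast h3
    nlinarith [sq_nonneg (2 * r + 1)]
  exact IsAlgClosed.of_ringEquiv ℂ _ (InfinitePlace.Completion.ringEquivComplexOfIsComplex hv).symm

lemma sum_one {L : Type} [Field L] [Algebra K L] {t : L} (ht : t * t = -1 - t) (i : Fin g)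
    (x : Fin g → Pt (E K) L) :
    ∑ k, endo ht ((1 : Matrix (Fin g) (Fin g) Eis) i k) (x k) = x i := by
  rw [Finset.sum_eq_single i]
  · rw [Matrix.one_apply_eq, endo_one]
  · intro k _ hk
    rw [Matrix.one_apply_ne hk.symm, endo_zero]
  · intro h
    exact absurd (Finset.mem_univ i) h

lemma actA_one (hz : z * z = -1 - z) (hc1 : c 1 = 1) (σ : Pool.Agent.TH841.SH.D.Gal K)
    (x : Fin g → Pt (E K) (AlgebraicClosure K)) (i : Fin g) :
    actA hz j c 1 σ x i = act (E K) σ.toAlgHom (x i) := by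
  unfold actA
  rw [hc1]
  exact sum_one _ i _

/-- the restriction of the local condition -/
lemma kum_rst {e : AlgebraicClosure K ≃ₐ[K] AlgebraicClosure F} (hz : z * z = -1 - z)
    (hc1 : c 1 = 1) (hr : ∀ σ : Pool.Agent.TH841.SH.D.Gal F, Restr j (res e σ) 1) {Kv L : Type}
    [Field Kv] [Field L] [Algebra K Kv] [Algebra K L] [Algebra Kv L] [IsScalarTower K Kv L]
    [Algebra F L] [IsScalarTower K F L] (h : LocalCondition hz j c Kv d) (i : Fin g) :
    LocKum 2 (E0 F) L (fun σ n => tr K F (AlgebraicClosure F)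
      (act (E0 K) (e : _ →ₐ[K] _) (d (res e σ) i n)) : Coch2 (E0 F)) := by
  intro ι
  let θ : AlgebraicClosure Kv →ₐ[Kv] AlgebraicClosure L := IsAlgClosed.lift
  let ι' : AlgebraicClosure K →ₐ[K] AlgebraicClosure L :=
    (ι.restrictScalars K).comp (e : _ →ₐ[K] _)
  obtain ⟨ι₀, hι₀⟩ := factor (θ.restrictScalars K) ι'
  obtain ⟨Q, hQ1, hQ2⟩ := h ι₀
  refine ⟨fun n => tr K F (AlgebraicClosure L) (act (E0 K) (θ.restrictScalars K) (Q i n)),
    fun n => ?_, fun τ σ hτ n => ?_⟩
  · show 2 • tr K F (AlgebraicClosure L) (act (E0 K) (θ.restrictScalars K) (Q i (n + 1))) = _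
    rw [← map_nsmul, ← map_nsmul, hQ1]
  · obtain ⟨t, ht⟩ := factor θ ((τ.toAlgHom.restrictScalars Kv).comp θ)
    let τ₀ : Pool.Agent.TH841.SH.D.Gal Kv :=
      AlgEquiv.ofBijective t (Algebra.IsAlgebraic.algHom_bijective t)
    have hτ₀ : ∀ y, θ (τ₀ y) = τ (θ y) := ht
    have h1 := hQ2 τ₀ (res e σ) (fun x => by
      apply θ.injective
      change θ (τ₀ (ι₀ x)) = θ (ι₀ (res e σ x))
      rw [hτ₀]
      have e1 : θ (ι₀ x) = ι' x := hι₀ x
      have e2 : θ (ι₀ (res e σ x)) = ι' (res e σ x) := hι₀ _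
      rw [e1, e2]
      change τ (ι (e x)) = ι (e (res e σ x))
      rw [res_apply, hτ]) 1 (hr σ) i n
    unfold actLoc at h1
    rw [hc1, sum_one] at h1
    have e3 : ι' = (θ.restrictScalars K).comp ι₀ := AlgHom.ext fun x => (hι₀ x).symm
    show act (E0 F) ι (tr K F (AlgebraicClosure F)
      (act (E0 K) (e : _ →ₐ[K] _) (d (res e σ) i n))) = _
    rw [← tr_act (k := K) (K := F) (ι.restrictScalars K) ι (fun _ => rfl), act_act]
    change tr K F (AlgebraicClosure L) (act (E0 K) ι' (d (res e σ) i n)) = _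
    rw [e3, ← act_act, h1, map_sub, map_sub, act_act]
    congr 1
    rw [← tr_act (k := K) (K := F) (τ.toAlgHom.restrictScalars K) (τ.toAlgHom.restrictScalars F)
      (fun _ => rfl), act_act]
    congr 2
    congr 1
    exact AlgHom.ext fun x => hτ₀ x

/-- **The Selmer group of a form is zero.** -/
theorem form_zero [IsGalois K F] (hF : SelV F) (hz : z * z = -1 - z) (hc1 : c 1 = 1)
    (hc : IsCocycle hz j c d)
    (hloc : ∀ v : HeightOneSpectrum (𝓞 K), LocalCondition hz j c (v.adicCompletion K) d) :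
    IsCoboundary hz j c d := by
  obtain ⟨e, he⟩ := exists_e j
  have hr : ∀ σ : Pool.Agent.TH841.SH.D.Gal F, Restr j (res e σ) 1 := by
    intro σ x
    apply e.injective
    rw [res_apply, he, σ.commutes, AlgEquiv.one_apply, he]
  -- the comparison of the points
  let T : Pt (E0 K) (AlgebraicClosure K) → Pt (E0 F) (AlgebraicClosure F) := fun P =>
    tr K F (AlgebraicClosure F) (act (E0 K) (e : _ →ₐ[K] _) P)
  have hTadd : ∀ P Q, T (P + Q) = T P + T Q := fun P Q => by
    show tr K F _ (act (E0 K) _ (P + Q)) = _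
    rw [map_add, map_add]
  have hTn : ∀ (a : ℕ) P, T (a • P) = a • T P := fun a P => by
    show tr K F _ (act (E0 K) _ (a • P)) = _
    rw [map_nsmul, map_nsmul]
  have hT0 : T 0 = 0 := by
    show tr K F _ (act (E0 K) _ 0) = _
    rw [map_zero, map_zero]
  have hTs : ∀ P Q, T (P - Q) = T P - T Q := fun P Q => by
    show tr K F _ (act (E0 K) _ (P - Q)) = _
    rw [map_sub, map_sub]
  have hTact : ∀ (σ : Pool.Agent.TH841.SH.D.Gal F) P, T (act (E0 K) (res e σ).toAlgHom P) =
      act (E0 F) σ.toAlgHom (T P) := fun σ P => tr_act_res e σ P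
  have inj : ∀ P, T P = 0 → P = 0 := by
    intro P hP
    apply act_inj (E0 K) (e : _ →ₐ[K] AlgebraicClosure F)
    apply (tr K F (AlgebraicClosure F)).injective
    rw [map_zero, map_zero]
    exact hP
  have surj : ∀ P, ∃ P₀, T P₀ = P := by
    intro P
    refine ⟨act (E0 K) (e.symm : AlgebraicClosure F →ₐ[K] AlgebraicClosure K)
      ((tr K F (AlgebraicClosure F)).symm P), ?_⟩
    have e4 : ((e : AlgebraicClosure K →ₐ[K] AlgebraicClosure F)).comp
        (e.symm : AlgebraicClosure F →ₐ[K] AlgebraicClosure K) = AlgHom.id K _ :=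
      AlgHom.ext fun x => e.apply_symm_apply x
    change tr K F (AlgebraicClosure F) (act (E0 K) (e : _ →ₐ[K] _)
      (act (E0 K) (e.symm : AlgebraicClosure F →ₐ[K] AlgebraicClosure K)
        ((tr K F (AlgebraicClosure F)).symm P))) = P
    rw [act_act, e4, act_id, AddEquiv.apply_symm_apply]
  have hr1 : Restr j (1 : Pool.Agent.TH841.SH.D.Gal K) 1 := fun x => rfl
  have c1 : ∀ i n, d 1 i n = 0 := by
    intro i n
    have h1 := hc.mul 1 1 1 hr1 i n
    rw [actA_one hz hc1, mul_one] at h1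
    have h2 : act (E K) (1 : Pool.Agent.TH841.SH.D.Gal K).toAlgHom (d 1 i n) = d 1 i n :=
      act_id (E0 K) _
    rw [h2] at h1
    exact left_eq_add.1 h1
  -- the restricted cocycles
  let b : Fin g → Coch2 (E0 F) := fun i σ n => T (d (res e σ) i n)
  have hd1 : ∀ i, b i 1 = 0 := by
    intro i
    funext n
    show T (d (res e 1) i n) = 0
    rw [res_one, c1, hT0]
  have hd : ∀ i, IsSelV 2 (E0 F) (b i) := by
    intro i
    refine ⟨⟨fun n => ?_, fun σ n => ⟨?_, ?_⟩, fun σ τ n => ?_⟩, fun w => ?_, fun w => ?_⟩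
    · exact ((hc.cont i n).comp_continuous (res_cont e)).comp T
    · show 2 • T (d (res e σ) i (n + 1)) = T (d (res e σ) i n)
      rw [← hTn, (hc.mem (res e σ) i n).1]
    · obtain ⟨M, hM⟩ := (hc.mem (res e σ) i n).2
      refine ⟨M, ?_⟩
      show (2 ^ M : ℕ) • T (d (res e σ) i n) = 0
      rw [← hTn, hM, hT0]
    · show T (d (res e (σ * τ)) i n) = T (d (res e σ) i n) +
        act (E0 F) σ.toAlgHom (T (d (res e τ) i n))
      rw [res_mul, hc.mul _ _ 1 (hr σ), actA_one hz hc1, hTadd, hTact]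
    · obtain ⟨v, φ, hφ⟩ := compl_tower K F w
      let : Algebra (v.adicCompletion K) (w.adicCompletion F) := φ.toAlgebra
      have : IsScalarTower K (v.adicCompletion K) (w.adicCompletion F) := by
        refine IsScalarTower.of_algebraMap_eq fun x => ?_
        rw [IsScalarTower.algebraMap_apply K F (w.adicCompletion F)]
        exact (hφ x).symm
      exact kum_rst hz hc1 hr (hloc v) i
    · have := closed_z hz w
      exact locKum_closed (hd1 i) _
  have hcob : ∀ i, IsCobV 2 (E0 F) (b i) := by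
    intro i
    have h1 := h1f_zero Nat.prime_two hF.fin 0 (fun k x hx => by
      rw [sha2 hF k x hx, smul_zero])
      (QuotientAddGroup.mk (⟨b i, hd i⟩ : selCocV 2 (E0 F)))
    have h2 := (QuotientAddGroup.eq_zero_iff _).1 h1
    rw [AddSubgroup.mem_addSubgroupOf] at h2
    exact h2
  choose y hy1 hy2 using hcob
  choose x hx using fun i n => surj (y i n)
  have hxV : ∀ i, InV (x i) := by
    intro i n
    obtain ⟨h1, M, h2⟩ := hy1 i n
    refine ⟨?_, M, ?_⟩
    · apply sub_eq_zero.1
      apply inj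
      rw [hTs, hTn, hx, hx, h1, sub_self]
    · apply inj
      rw [hTn, hx, h2]
  refine ⟨x, hxV, ?_⟩
  -- the difference
  have hN : ∀ (σ : Pool.Agent.TH841.SH.D.Gal F) i n, d (res e σ) i n =
      act (E0 K) (res e σ).toAlgHom (x i n) - x i n := by
    intro σ i n
    apply sub_eq_zero.1
    apply inj
    rw [hTs, hTs, hTact, hx]
    exact sub_eq_zero.2 (hy2 i σ n)
  intro t s hs i n
  obtain ⟨S, hS⟩ : ∃ S, S = actA hz j c s t (fun k => x k n) i := ⟨_, rfl⟩
  rw [← hS]
  have key : ∀ σ : Pool.Agent.TH841.SH.D.Gal F, act (E0 K) (res e σ).toAlgHom (d t i n - (S - x i n)) =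
      d t i n - (S - x i n) := by
    intro σ
    obtain ⟨σ', hσ'⟩ := conj_ex e σ t
    have a := hc.mul (res e σ) t 1 (hr σ) i n
    have b := hc.mul t (res e σ') s hs i n
    have hfix : (res e σ).toAlgHom (j.toRingHom (z : F)) = j.toRingHom (z : F) := hr σ (z : F)
    have b2 : actA hz j c s t (fun k => d (res e σ') k n) i =
        act (E0 K) (res e σ).toAlgHom S - S := by
      rw [hS]
      unfold actA
      rw [map_sum, ← Finset.sum_sub_distrib]
      refine Finset.sum_congr rfl fun k _ => ?_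
      have e7 := act_endo (map_root hz j.toRingHom) (map_root hz j.toRingHom)
        (res e σ).toAlgHom hfix (c s i k) (act (E K) t.toAlgHom (x k n))
      beta_reduce
      rw [hN, map_sub, map_sub, e7, act_act, act_act]
      have e5 : t.toAlgHom.comp (res e σ').toAlgHom = (res e σ).toAlgHom.comp t.toAlgHom :=
        congrArg AlgEquiv.toAlgHom hσ'.symm
      rw [e5]
    rw [hσ', b, b2, actA_one hz hc1, hN σ] at a
    rw [map_sub, map_sub]
    have e6 : act (E0 K) (res e σ).toAlgHom (d t i n) =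
        d t i n + (act (E0 K) (res e σ).toAlgHom S - S) -
          (act (E0 K) (res e σ).toAlgHom (x i n) - x i n) := by
      rw [a]
      abel
    rw [e6]
    abel
  obtain ⟨R0, hR0⟩ := fixpt (T (d t i n - (S - x i n))) (fun σ => by rw [← hTact, key])
  have hS2 : S ∈ pt2 (E0 K) := by
    rw [hS]
    unfold actA
    exact sum_mem fun k _ => map_pt2 _ (by
      obtain ⟨M, hM⟩ := (hxV k n).2
      exact ⟨M, by rw [← map_nsmul, hM, map_zero]⟩)
  obtain ⟨M, hM⟩ : d t i n - (S - x i n) ∈ pt2 (E0 K) :=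
    sub_mem (hc.mem t i n).2 (sub_mem hS2 (hxV i n).2)
  apply sub_eq_zero.1
  apply inj
  have h3 : (2 ^ M : ℕ) • R0 = 0 := by
    apply act_inj (E0 F) (Algebra.ofId F (AlgebraicClosure F))
    rw [map_nsmul, hR0, ← hTn, hM, hT0, map_zero]
  rw [← hR0, tor2 hF.odd M R0 h3, map_zero]

/-- **There are no invariants.** -/
theorem inv_zero [IsGalois K F] (hF : SelV F) (hz : z * z = -1 - z) (hc1 : c 1 = 1) :
    InvariantsZero hz j c := by
  obtain ⟨e, he⟩ := exists_e j
  have hr : ∀ σ : Pool.Agent.TH841.SH.D.Gal F, Restr j (res e σ) 1 := by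
    intro σ x
    apply e.injective
    rw [res_apply, he, σ.commutes, AlgEquiv.one_apply, he]
  intro x hx hinv i n
  let T : Pt (E0 K) (AlgebraicClosure K) → Pt (E0 F) (AlgebraicClosure F) := fun P =>
    tr K F (AlgebraicClosure F) (act (E0 K) (e : _ →ₐ[K] _) P)
  have hTn : ∀ (a : ℕ) P, T (a • P) = a • T P := fun a P => by
    show tr K F _ (act (E0 K) _ (a • P)) = _
    rw [map_nsmul, map_nsmul]
  have hT0 : T 0 = 0 := by
    show tr K F _ (act (E0 K) _ 0) = _
    rw [map_zero, map_zero]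
  have hTact : ∀ (σ : Pool.Agent.TH841.SH.D.Gal F) P, T (act (E0 K) (res e σ).toAlgHom P) =
      act (E0 F) σ.toAlgHom (T P) := fun σ P => tr_act_res e σ P
  have inj : ∀ P, T P = 0 → P = 0 := by
    intro P hP
    apply act_inj (E0 K) (e : _ →ₐ[K] AlgebraicClosure F)
    apply (tr K F (AlgebraicClosure F)).injective
    rw [map_zero, map_zero]
    exact hP
  have key : ∀ σ : Pool.Agent.TH841.SH.D.Gal F, act (E0 K) (res e σ).toAlgHom (x i n) = x i n := by
    intro σ
    have h1 := hinv (res e σ) 1 (hr σ) i n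
    rwa [actA_one hz hc1] at h1
  obtain ⟨R0, hR0⟩ := fixpt (T (x i n)) (fun σ => by rw [← hTact, key])
  obtain ⟨M, hM⟩ := (hx i n).2
  apply inj
  have h3 : (2 ^ M : ℕ) • R0 = 0 := by
    apply act_inj (E0 F) (Algebra.ofId F (AlgebraicClosure F))
    rw [map_nsmul, hR0, ← hTn, hM, hT0, map_zero]
  rw [← hR0, tor2 hF.odd M R0 h3, map_zero]

end main

end Pool.Agent.H508.S
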